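import Pool.Agent.Helper92.ZH.Goals
import Pool.Agent.Helper38.VN.NQX

/-!
# T3 (MP_a41896_nt): NQX2, the norm polynomial with its product formula
-/

set_option autoImplicit false

open MvPolynomial

namespace Pool.Agent.Helper38.ZH.NQX2

open WeierstrassCurve Height
open Pool.Agent.Helper29.BL Pool.Agent.Helper92.Ru Pool.Agent.Helper42.SG
open Pool.Agent.Helper65.SG (NPol FRPO NQH PlC_mul)
open Pool.Agent.Helper68.VN
open Pool.Agent.Helper38.VN.NQX (ddB_le aeval_redV)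

theorem t (hFRPO : FRPO) (hNBB : NBB) (hNWB : NWB) (hNNB : NNB)
    (hNEB : NEB) (hNVB : NVB) (hNDB : NDB) (hNRB : NRB) (hNHB : NHB) (hNQH : NQH) :
    Pool.Agent.Helper92.ZH.NQX2 := by
  classical
  intro K _ _ σ _ _ W n M δ hn hM hδ
  obtain ⟨B1, hB1, h1⟩ := hNBB K σ W n M δ hn
  obtain ⟨B2, hB2, h2⟩ := hNRB K (VV σ n) (cv W)
  obtain ⟨k0, hk0⟩ : ∃ k0, k0 = nsg σ n * (2 * M + 1 + 2 * n * M + δ) := ⟨_, rfl⟩
  obtain ⟨B3, hB3⟩ : ∃ B3 : AbsoluteValue K ℝ → ℝ, B3 = fun v => B1 v * B2 v ^ k0 := ⟨_, rfl⟩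
  have hP3 : PlC B3 := hB3 ▸ PlC_mul hB1 hB2 k0
  obtain ⟨C, hC, h3⟩ := hNHB K B3 hP3
  have h4 := (hNQH K B3 hP3).2
  have hns : (1 : ℝ) ≤ (nsg σ n : ℝ) := by
    exact_mod_cast Nat.one_le_pow _ _ (by norm_num)
  refine ⟨C * nsg σ n, by positivity, fun e c A hA hint hhouse => ?_⟩
  refine ⟨redV (cv W) (QhB W n M δ e c), ?_, ?_, ?_⟩
  · intro h
    exact hNDB K (VV σ n) (cv W) _ h _ (hNWB K σ W n M δ e c h)
  · have h5 := h3 (VV σ n) (sqB e) (nsg σ n) A (redV (cv W) (QhB W n M δ e c)) hA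
      fun v hv m => ?_
    · refine h5.trans ?_
      have h6 : (sqB e : ℝ) ≤ nsg σ n * (sqB e : ℝ) :=
        le_mul_of_one_le_left (by positivity) hns
      calc C * ((nsg σ n : ℕ) * A + (sqB e : ℝ))
          ≤ C * ((nsg σ n : ℕ) * A + nsg σ n * (sqB e : ℝ)) := by gcongr
        _ = C * nsg σ n * ((sqB e : ℝ) + A) := by ring
    · have hs : 0 ≤ cst v (Real.exp A) :=
        zero_le_one.trans (one_le_cst v (Real.one_le_exp hA))
      have h6 := h1 e c v (cst v (Real.exp A)) hs fun α => h4 (c α) A v (hint α) (hhouse α) hv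
      have h7 := h2 (QhB W n M δ e c) v _ (k0 * sqB e) h6 fun m hm h => by
        have h8 := hNWB K σ W n M δ e c h m hm
        have h9 := ddB_le σ n M δ e hn h
        rw [← hk0] at h9
        omega
      have h8 := (hFRPO K v (VV σ n)).2.2 _ _ m h7
      refine h8.trans (le_of_eq ?_)
      rw [hB3, mul_pow, ← pow_mul]
      ring
  · intro A _ _ X Ψ X0 Ψ0 hX
    exact aeval_redV hNNB hNEB hNVB σ W n M δ e c A X Ψ X0 Ψ0 hX

end Pool.Agent.Helper38.ZH.NQX2
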